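import Pool.Agent.T9h34.Reads

/-!
The values read by the further gates change at most `∏ (fan-in + 1) - 1` times along a chain.
-/

set_option autoImplicit false

namespace Pool.Agent.T9h35.NearBF

open Finset Pool.Agent.T9h34

variable {ι : Type}

theorem count_mono {α : Type} (as : List α) (f g : α → Bool)
    (h : ∀ a ∈ as, f a = true → g a = true) :
    (as.map f).count true ≤ (as.map g).count true ∧
      (as.map f ≠ as.map g → (as.map f).count true < (as.map g).count true) := by
  induction as with
  | nil => simp
  | cons a as ih =>
    obtain ⟨h1, h2⟩ := ih (fun b hb => h b (by simp [hb]))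
    have h3 := h a (by simp)
    simp only [List.map_cons, List.count_cons]
    cases hf : f a with
    | true =>
      rw [hf] at h3
      rw [h3 rfl]
      refine ⟨by simpa using h1, fun hne => ?_⟩
      have : List.map f as ≠ List.map g as := fun hcon => hne (by rw [hcon])
      simpa using h2 this
    | false =>
      cases hg : g a with
      | true =>
        simp only [beq_self_eq_true, if_true, Bool.false_beq, Bool.not_true, Bool.false_eq_true,
          if_false]
        exact ⟨by omega, fun _ => by omega⟩
      | false =>
        refine ⟨by simpa using h1, fun hne => ?_⟩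
        have : List.map f as ≠ List.map g as := fun hcon => hne (by rw [hcon])
        simpa using h2 this

/-- The number of values read by gate `l` if it is a further gate. -/
def fan (C : Circuit ι) (l : ℕ) : ℕ :=
  match C.gates[l]? with
  | some g => g.args.length
  | none => 0

theorem length_readsAt (C : Circuit ι) (x : ι → Bool) (l : ℕ) :
    (C.readsAt x l).length = fan C l := by
  unfold Circuit.readsAt fan
  cases C.gates[l]? with
  | none => rfl
  | some g => simp

/-- The mixed radix number of the numbers of ones read by the gates. -/
def pot (C : Circuit ι) (x : ι → Bool) : ℕ → ℕ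
  | 0 => 0
  | l + 1 => pot C x l * (fan C l + 1) + (C.readsAt x l).count true

theorem pot_lt (C : Circuit ι) (x : ι → Bool) (l : ℕ) :
    pot C x l + 1 ≤ ∏ i ∈ range l, (fan C i + 1) := by
  induction l with
  | zero => simp [pot]
  | succ l ih =>
    rw [prod_range_succ, pot]
    have h1 : (C.readsAt x l).count true ≤ fan C l := by
      rw [← length_readsAt C x l]
      exact List.count_le_length
    calc pot C x l * (fan C l + 1) + (C.readsAt x l).count true + 1
        ≤ pot C x l * (fan C l + 1) + (fan C l + 1) := by omega
      _ = (pot C x l + 1) * (fan C l + 1) := by ring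
      _ ≤ _ := Nat.mul_le_mul_right _ ih

theorem readsAt_mono (C : Circuit ι) {x y : ι → Bool} (hxy : ∀ i, x i = true → y i = true)
    (l : ℕ) (h : ∀ l' < l, C.readsAt x l' = C.readsAt y l') :
    (C.readsAt x l).count true ≤ (C.readsAt y l).count true ∧
      (C.readsAt x l ≠ C.readsAt y l →
        (C.readsAt x l).count true < (C.readsAt y l).count true) := by
  cases hg : C.gates[l]? with
  | none =>
    unfold Circuit.readsAt
    rw [hg]
    simp
  | some g =>
    have hl : l < C.gates.length := by
      by_contra hcon
      rw [List.getElem?_eq_none (by omega)] at hg
      exact absurd hg (by simp)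
    have key : ∀ a ∈ g.args, a.eval x (runGates x (C.gates.take l)) = true →
        a.eval y (runGates y (C.gates.take l)) = true := by
      intro a ha hax
      set gs := C.gates.take l with hgs
      have hlen : gs.length = l := by rw [hgs, List.length_take]; omega
      have h2 : ∀ (j : ℕ) (g : Gate ι), gs[j]? = some g → ∀ a ∈ g.args,
          a.eval x (runGates x (gs.take j)) = a.eval y (runGates y (gs.take j)) := by
        intro j g' hg' a' ha'
        have hj : j < l := by
          by_contra hcon
          rw [List.getElem?_eq_none (by omega)] at hg'
          exact absurd hg' (by simp)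
        have h3 := h j hj
        have h4 : C.gates[j]? = some g' := by
          rw [hgs, List.getElem?_take_of_lt hj] at hg'
          exact hg'
        unfold Circuit.readsAt at h3
        rw [h4] at h3
        have h5 := List.map_inj_left.1 h3 a' ha'
        have h6 : gs.take j = C.gates.take j := by
          rw [hgs, List.take_take, min_eq_left hj.le]
        rw [h6]
        exact h5
      have hx := runGates_fixOther2 x y gs h2 gs.length le_rfl
      have hy := runGates_fixOther_self y gs gs.length le_rfl
      rw [List.take_length] at hx hy
      rw [hx] at hax
      rw [hy]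
      exact Src.eval_mono hxy (runGates_mono hxy _ (fixOther_isMono _ 0 gs)) a hax
    unfold Circuit.readsAt
    rw [hg]
    exact count_mono g.args _ _ key

theorem pot_mono (C : Circuit ι) {x y : ι → Bool} (hxy : ∀ i, x i = true → y i = true)
    (l : ℕ) : ((∀ l' < l, C.readsAt x l' = C.readsAt y l') ∧ pot C x l = pot C y l) ∨
      pot C x l < pot C y l := by
  induction l with
  | zero => exact Or.inl ⟨fun l' hl' => absurd hl' (by omega), rfl⟩
  | succ l ih =>
    have hc : ∀ z, (C.readsAt z l).count true ≤ fan C l := by
      intro z
      rw [← length_readsAt C z l]
      exact List.count_le_length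
    rcases ih with ⟨h1, h2⟩ | h1
    · obtain ⟨h3, h4⟩ := readsAt_mono C hxy l h1
      by_cases hne : C.readsAt x l = C.readsAt y l
      · left
        refine ⟨fun l' hl' => ?_, ?_⟩
        · rcases Nat.lt_succ_iff_lt_or_eq.1 hl' with h | rfl
          · exact h1 l' h
          · exact hne
        · rw [pot, pot, h2, hne]
      · right
        rw [pot, pot, h2]
        have := h4 hne
        omega
    · right
      rw [pot, pot]
      have h5 : (pot C x l + 1) * (fan C l + 1) ≤ pot C y l * (fan C l + 1) :=
        Nat.mul_le_mul_right _ h1
      have h6 := hc x
      have h7 : (pot C x l + 1) * (fan C l + 1) = pot C x l * (fan C l + 1) + (fan C l + 1) := by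
        ring
      omega

theorem pot_lt_of_ne (C : Circuit ι) {x y : ι → Bool} (hxy : ∀ i, x i = true → y i = true)
    (h : C.reads x ≠ C.reads y) : pot C x C.gates.length < pot C y C.gates.length := by
  rcases pot_mono C hxy C.gates.length with ⟨h1, -⟩ | h1
  · exfalso
    apply h
    unfold Circuit.reads
    apply List.map_congr_left
    intro j hj
    exact h1 j (List.mem_range.1 hj)
  · exact h1

theorem prod_fan (C : Circuit ι) :
    ∏ i ∈ range C.gates.length, (fan C i + 1) = (C.gates.map fun g => g.args.length + 1).prod := by
  have h1 : ∀ (gs : List (Gate ι)), ∏ i ∈ range gs.length,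
      ((match gs[i]? with | some g => g.args.length | none => 0) + 1)
        = (gs.map fun g => g.args.length + 1).prod := by
    intro gs
    induction gs with
    | nil => simp
    | cons g gs ih =>
      rw [List.length_cons, prod_range_succ', List.map_cons, List.prod_cons, ← ih, mul_comm]
      simp
  exact h1 C.gates

/-- The number of changes along a chain. -/
theorem changes_le (C : Circuit ι) (x : ℕ → ι → Bool)
    (hx : ∀ i e, x i e = true → x (i + 1) e = true) (m : ℕ)
    (h : ∀ i < m, C.reads (x i) ≠ C.reads (x (i + 1))) :
    m + 1 ≤ (C.gates.map fun g => g.args.length + 1).prod := by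
  have key : ∀ i ≤ m, i ≤ pot C (x i) C.gates.length := by
    intro i
    induction i with
    | zero => intro _; omega
    | succ i ih =>
      intro hi
      have h1 := pot_lt_of_ne C (hx i) (h i (by omega))
      have h2 := ih (by omega)
      omega
  have h1 := key m le_rfl
  have h2 := pot_lt C (x m) C.gates.length
  rw [prod_fan] at h2
  omega

end Pool.Agent.T9h35.NearBF
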