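import Pool.Agent.T9h35.NearBF.Host
import Pool.Agent.T9h35.NearBF.Count
import Pool.Agent.T9h35.Sharp.Closed
import Pool.Agent.T9h34.BlockHard
import Pool.Agent.T9h34.EdgeInputs

/-!
Filling the blocks one after the other.
-/

set_option autoImplicit false

namespace Pool.Agent.T9h35.NearBF

open Finset Pool.Agent.T9h34 Pool.Agent.T9h16 Pool.Agent.T9h35.Sharp

/-- The gates of a circuit without further gates form a straight-line program. -/
theorem isSLP_gates {Λ E : Type} (D : Circuit Λ) (hD : ∀ g ∈ D.gates, g.IsMono)
    (x : Set E → Λ → Bool) (hleaf : ∀ a, Leaf (fun z => x z a = true)) :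
    IsSLP (fun j z => (runGates (x z) D.gates).getD j false = true) D.size := by
  intro i hi
  right
  have hi' : i < D.gates.length := hi
  have hval : ∀ z, (runGates (x z) D.gates).getD i false
      = D.gates[i].eval (x z) (runGates (x z) (D.gates.take i)) := by
    intro z
    have h4 := getD_runGates_take (x z) D.gates (j := i + 1) (k := i) (by omega) hi'
    have htake : D.gates.take (i + 1) = D.gates.take i ++ [D.gates[i]] := by
      rw [List.take_succ_eq_append_getElem hi']
    rw [htake, runGates_append,
      getD_append_eq (by rw [length_runGates, List.length_take]; omega)] at h4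
    exact h4.symm
  have hmono := hD D.gates[i] (List.getElem_mem hi')
  cases hg : D.gates[i] with
  | and a b =>
    refine ⟨_, _, avail_src D.gates x hleaf i hi'.le a, avail_src D.gates x hleaf i hi'.le b,
      Or.inl fun z => ?_⟩
    change (runGates (x z) D.gates).getD i false = true ↔ _
    rw [hval z, hg]
    simp [Gate.eval]
  | or a b =>
    refine ⟨_, _, avail_src D.gates x hleaf i hi'.le a, avail_src D.gates x hleaf i hi'.le b,
      Or.inr fun z => ?_⟩
    change (runGates (x z) D.gates).getD i false = true ↔ _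
    rw [hval z, hg]
    simp [Gate.eval]
  | other args φ =>
    rw [hg] at hmono
    simp [Gate.IsMono, Gate.isOther] at hmono

theorem avail_out {Λ E : Type} (D : Circuit Λ)
    (x : Set E → Λ → Bool) (hleaf : ∀ a, Leaf (fun z => x z a = true)) :
    Avail (fun j z => (runGates (x z) D.gates).getD j false = true) D.size
      (fun z => D.eval (x z) = true) := by
  have := avail_src D.gates x hleaf D.gates.length le_rfl D.out
  rw [List.take_length] at this
  exact this

open scoped Classical in
/-- A small monotone circuit which accepts all transversals accepts some colouring. -/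
theorem exists_neg {Λ : Type} {m w : ℕ} (r s : ℕ) (hm : 2 ≤ m) (hr : 1 ≤ r) (D : Circuit Λ)
    (hD : ∀ g ∈ D.gates, g.IsMono) (hDs : D.size ≤ s)
    (x : Set (EE (m + 1) w) → Λ → Bool) (hleaf : ∀ a, Leaf (fun z => x z a = true))
    (hpos : ∀ z, TK z → D.eval (x z) = true)
    (h1 : m ^ m * ((3 * s + 1) * NS (Vx (m + 1) w) m) < 2 ^ r)
    (h2 : s * (2 ^ (m + 1) * (2 * m * (m * r)) ^ m) ^ 2 < w ^ (m + 1)) :
    ∃ z, ¬ TK z ∧ D.eval (x z) = true := by
  by_contra hcon
  push Not at hcon
  obtain ⟨h, hh⟩ : ∃ h : Set (EE (m + 1) w) → Prop, h = fun z => D.eval (x z) = true := ⟨_, rfl⟩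
  have hh' : ∀ z, h z ↔ D.eval (x z) = true := fun z => by rw [hh]
  have hfew := few_accepted_exp r (2 * m) hm hr le_rfl _ D.size (isSLP_gates D hD x hleaf)
    h (hh ▸ avail_out D x hleaf)
    (fun χ hχ => hcon (negG χ) (not_TK_negG χ) ((hh' _).1 hχ)) (lt_of_le_of_lt (by gcongr) h1)
  have hall : (univ : Finset (Fin (m + 1) → Fin w)).card ≤ _ :=
    (card_le_card (fun φ _ => mem_filter.2
      ⟨mem_univ φ, (hh' _).2 (hpos _ ⟨φ, subset_rfl⟩)⟩)).trans hfew
  rw [card_univ, Fintype.card_fun, Fintype.card_fin, Fintype.card_fin] at hall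
  have h3 : D.size * (2 ^ (m + 1) * (2 * m * (m * r)) ^ m) ^ 2
      ≤ s * (2 ^ (m + 1) * (2 * m * (m * r)) ^ m) ^ 2 := Nat.mul_le_mul_right _ hDs
  omega

/-- Fill the blocks one after the other by negative inputs, such that the values read by the
gates which are not monotone change in every step. -/
theorem chain_gen {ι Λ E : Type} [Fintype ι] (P : Set E → Prop) (hP : ¬ P ∅) (N : ℕ)
    (hard : ∀ (D : Circuit Λ), (∀ g ∈ D.gates, g.IsMono) → D.size ≤ N →
      ∀ x : Set E → Λ → Bool, (∀ a, Leaf (fun z => x z a = true)) →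
      (∀ z, P z → D.eval (x z) = true) → ∃ z, ¬ P z ∧ D.eval (x z) = true)
    (C : Circuit Λ) (hs : C.size + C.numReads + 1 ≤ N)
    (X : (ι → Set E) → Λ → Bool)
    (mono : ∀ y y', (∀ i, y i ⊆ y' i) → ∀ a, X y a = true → X y' a = true)
    (leaf : ∀ e, (∃ t : Bool, ∀ y, X y e = t) ∨ ∃ i b, ∀ y, X y e = true ↔ b ∈ y i)
    (hC : ∀ y, C.eval (X y) = true ↔ ∃ i, P (y i)) :
    ∃ Y : ℕ → ι → Set E, (∀ j i, Y j i ⊆ Y (j + 1) i) ∧
      (∀ j i, ¬ P (Y j i)) ∧
      ∀ j < Fintype.card ι, C.reads (X (Y j)) ≠ C.reads (X (Y (j + 1))) := by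
  classical
  set σ := Fintype.equivFin ι
  have key : ∀ m ≤ Fintype.card ι, ∃ Y : ℕ → ι → Set E,
      (∀ j i, Y j i ⊆ Y (j + 1) i) ∧ (∀ j i, ¬ P (Y j i)) ∧
      (∀ j < m, C.reads (X (Y j)) ≠ C.reads (X (Y (j + 1)))) ∧
      (∀ i, m ≤ (σ i).val → Y m i = ∅) := by
    intro m
    induction m with
    | zero =>
      intro _
      exact ⟨fun _ _ => ∅, fun _ _ => Set.Subset.rfl, fun _ _ => hP,
        fun j hj => absurd hj (by omega), fun _ _ => rfl⟩
    | succ m ih =>
      intro hm
      obtain ⟨Y, h1, h2, h3, h4⟩ := ih (by omega)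
      obtain ⟨b, hb⟩ : ∃ b, (σ b).val = m := ⟨σ.symm ⟨m, hm⟩, by simp⟩
      have hYb : Y m b = ∅ := h4 b hb.ge
      obtain ⟨D, hD1, hD2, hD3, hD4⟩ := exists_detector C (X (Y m))
      have hsub : ∀ z i, Y m i ⊆ Function.update (Y m) b z i := by
        intro z i
        by_cases hi : i = b
        · subst hi
          rw [hYb]
          exact Set.empty_subset _
        · rw [Function.update_of_ne hi]
      have hleaf : ∀ a, Leaf (fun z => X (Function.update (Y m) b z) a = true) := by
        intro a
        rcases leaf a with ⟨t, ht⟩ | ⟨i, v, hv⟩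
        · refine Or.inr ⟨t = true, fun z => ?_⟩
          change X _ a = true ↔ _
          rw [ht]
        · by_cases hib : i = b
          · subst hib
            left
            refine ⟨v, fun z => ?_⟩
            change X _ a = true ↔ _
            rw [hv, Function.update_self]
          · right
            refine ⟨v ∈ Y m i, fun z => ?_⟩
            change X _ a = true ↔ _
            rw [hv, Function.update_of_ne hib]
      obtain ⟨z, hz, hDz⟩ := hard D hD1 (hD2.trans hs)
        (fun z => X (Function.update (Y m) b z)) hleaf (by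
          intro z hz
          by_contra hcon
          rw [Bool.not_eq_true] at hcon
          have h5 := (hD3 _ (fun i hi => mono _ _ (hsub z) i hi) hcon).2
          have h6 := (hC (Function.update (Y m) b z)).2
            ⟨b, by rw [Function.update_self]; exact hz⟩
          rw [h6] at h5
          exact absurd h5 (by simp))
      have hneg : ∀ i, ¬ P (Function.update (Y m) b z i) := by
        intro i
        by_cases hi : i = b
        · subst hi
          rw [Function.update_self]
          exact hz
        · rw [Function.update_of_ne hi]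
          exact h2 m i
      have hchange : C.reads (X (Y m)) ≠ C.reads (X (Function.update (Y m) b z)) := by
        intro hcon
        have h5 := hD4 _ hcon.symm hDz
        obtain ⟨i, hi⟩ := (hC _).1 h5
        exact hneg i hi
      refine ⟨fun j => if j ≤ m then Y j else Function.update (Y m) b z, ?_, ?_, ?_, ?_⟩
      · intro j i
        rcases lt_trichotomy j m with h | h | h
        · simp only [h.le, if_true, if_pos (Nat.succ_le_of_lt h)]
          exact h1 j i
        · subst h
          simp only [le_refl, if_true, if_neg (Nat.not_succ_le_self j)]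
          exact hsub z i
        · simp only [if_neg (by omega : ¬ j ≤ m), if_neg (by omega : ¬ j + 1 ≤ m)]
          exact Set.Subset.rfl
      · intro j i
        by_cases h : j ≤ m
        · simp only [if_pos h]
          exact h2 j i
        · simp only [if_neg h]
          exact hneg i
      · intro j hj
        rcases Nat.lt_succ_iff_lt_or_eq.1 hj with h | h
        · simp only [h.le, if_true, if_pos (Nat.succ_le_of_lt h)]
          exact h3 j h
        · subst h
          simp only [le_refl, if_true, if_neg (Nat.not_succ_le_self j)]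
          exact hchange
      · intro i hi
        simp only [if_neg (Nat.not_succ_le_self m)]
        have hib : i ≠ b := by
          rintro rfl
          omega
        rw [Function.update_of_ne hib]
        exact h4 i (by omega)
  obtain ⟨Y, h1, h2, h3, -⟩ := key _ le_rfl
  exact ⟨Y, h1, h2, h3⟩

open Classical in
/-- The values of the edge variables of the graph `G`. -/
noncomputable def edgeValues {n : ℕ} (G : SimpleGraph (Fin n)) : Pair n → Bool :=
  fun e => decide (G.Adj e.1.1 e.1.2)

/-- The main step: a chain with as many changes as there are blocks. -/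
theorem chain_clique (n k m w p r : ℕ) {I : Type} [Fintype I] (σ : Sys I (m + 1) p) (hm : 2 ≤ m)
    (hk : m + 1 ≤ k) (hr : 1 ≤ r) (hn : (m + 1) * (p * w) + (k - (m + 1)) ≤ n)
    (C : Circuit (Pair n))
    (hC : ∀ G : SimpleGraph (Fin n), C.eval (edgeValues G) = true ↔
      ∃ c : Finset (Fin n), G.IsClique (c : Set (Fin n)) ∧ k ≤ c.card)
    (h1 : m ^ m * ((3 * (C.size + C.numReads + 1) + 1) * NS (Vx (m + 1) w) m) < 2 ^ r)
    (h2 : (C.size + C.numReads + 1) * (2 ^ (m + 1) * (2 * m * (m * r)) ^ m) ^ 2 < w ^ (m + 1)) :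
    ∃ G : ℕ → SimpleGraph (Fin n), (∀ i, G i ≤ G (i + 1)) ∧
      (∀ i, ¬ ∃ c : Finset (Fin n), (G i).IsClique (c : Set (Fin n)) ∧ k ≤ c.card) ∧
      ∀ i < Fintype.card I, C.reads (edgeValues (G i)) ≠ C.reads (edgeValues (G (i + 1))) := by
  obtain ⟨H, hmono, hleaf, hcl⟩ := host n k (by omega) hk σ hn
  obtain ⟨Y, hY1, hY2, hY3⟩ := chain_gen (ι := I) (Λ := Pair n) (TK (j := m + 1) (w := w))
    (not_TK_empty (by omega)) (C.size + C.numReads + 1)
    (fun D hD hDs x hx hpos => exists_neg r _ hm hr D hD hDs x hx hpos h1 h2) C le_rfl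
    (fun y => edgeValues (H y)) (by
      intro y y' hyy a ha
      simp only [edgeValues, decide_eq_true_eq] at ha ⊢
      exact hmono y y' hyy ha) (by
      intro e
      rcases hleaf e.1.1 e.1.2 with ⟨t, ht⟩ | ⟨i, b, hb⟩
      · left
        classical
        refine ⟨decide t, fun y => ?_⟩
        simp only [edgeValues]
        by_cases h : t
        · simp [ht y, h]
        · simp [ht y, h]
      · right
        refine ⟨i, b, fun y => ?_⟩
        simp only [edgeValues, decide_eq_true_eq]
        exact hb y) (fun y => (hC (H y)).trans (hcl y))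
  refine ⟨fun i => H (Y i), fun i => hmono _ _ (hY1 i), ?_, hY3⟩
  intro i hcon
  obtain ⟨β, hβ⟩ := (hcl _).1 hcon
  exact hY2 i β hβ

end Pool.Agent.T9h35.NearBF
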