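import Mathlib

/-!
The computation of the parameters.
-/

set_option autoImplicit false

namespace Pool.Agent.T9h35.NearBF

theorem root_exists (T j : ℕ) (hT : 1 ≤ T) (hj : 1 ≤ j) :
    ∃ w, 1 ≤ w ∧ T < w ^ j ∧ w ^ j ≤ 2 ^ j * T := by
  have hex : ∃ w, T < w ^ j := ⟨T + 1, by
    calc T < T + 1 := Nat.lt_succ_self _
      _ = (T + 1) ^ 1 := (pow_one _).symm
      _ ≤ (T + 1) ^ j := Nat.pow_le_pow_right (by omega) hj⟩
  classical
  obtain ⟨w, hw, hmin⟩ : ∃ w, T < w ^ j ∧ ∀ v < w, v ^ j ≤ T :=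
    ⟨Nat.find hex, Nat.find_spec hex, fun v hv => by
      have := Nat.find_min hex hv
      omega⟩
  have hw2 : 2 ≤ w := by
    by_contra hcon
    have h1 : w ^ j ≤ 1 ^ j := Nat.pow_le_pow_left (by omega) j
    rw [one_pow] at h1
    omega
  refine ⟨w, by omega, hw, ?_⟩
  have h1 := hmin (w - 1) (by omega)
  calc w ^ j ≤ (2 * (w - 1)) ^ j := Nat.pow_le_pow_left (by omega) j
    _ = 2 ^ j * (w - 1) ^ j := mul_pow _ _ _
    _ ≤ 2 ^ j * T := Nat.mul_le_mul_left _ h1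

theorem digit_exists (D j w N : ℕ) (hD : 1 ≤ D) (hj : 1 ≤ j) (hw : 1 ≤ w)
    (h : j * (2 * (j * (j * 1) ^ D) * w) ≤ N) :
    ∃ d, 1 ≤ d ∧ j * (2 * (j * (j * d) ^ D) * w) ≤ N ∧
      N < j * (2 * (j * (j * (d + 1)) ^ D) * w) := by
  have hex : ∃ d, N < j * (2 * (j * (j * d) ^ D) * w) := by
    refine ⟨N + 1, ?_⟩
    calc N < N + 1 := Nat.lt_succ_self _
      _ = (N + 1) ^ 1 := (pow_one _).symm
      _ ≤ (N + 1) ^ D := Nat.pow_le_pow_right (by omega) hD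
      _ ≤ (j * (N + 1)) ^ D := Nat.pow_le_pow_left (Nat.le_mul_of_pos_left _ (by omega)) D
      _ ≤ j * (j * (N + 1)) ^ D := Nat.le_mul_of_pos_left _ (by omega)
      _ ≤ 2 * (j * (j * (N + 1)) ^ D) := by omega
      _ ≤ 2 * (j * (j * (N + 1)) ^ D) * w := Nat.le_mul_of_pos_right _ (by omega)
      _ ≤ j * (2 * (j * (j * (N + 1)) ^ D) * w) := Nat.le_mul_of_pos_left _ (by omega)
  classical
  obtain ⟨d, hd, hmin⟩ : ∃ d, N < j * (2 * (j * (j * d) ^ D) * w) ∧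
      ∀ v < d, j * (2 * (j * (j * v) ^ D) * w) ≤ N :=
    ⟨Nat.find hex, Nat.find_spec hex, fun v hv => by
      have := Nat.find_min hex hv
      omega⟩
  have hd0 : d ≠ 0 := by
    rintro rfl
    have : (j * 0) ^ D = 0 := by
      rw [mul_zero, zero_pow (by omega)]
    rw [this] at hd
    simp at hd
  have hd1 : d ≠ 1 := by
    rintro rfl
    omega
  refine ⟨d - 1, by omega, hmin _ (by omega), ?_⟩
  have : d - 1 + 1 = d := by omega
  rw [this]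
  exact hd

/-- The bound for the number of vertices, given the blocks. -/
theorem square_bound (D d j w N M : ℕ) (hd : 1 ≤ d)
    (hN : N < j * (2 * (j * (j * (d + 1)) ^ D) * w))
    (hM : j * (j * d) ^ D * d ^ D ≤ M * (D * d ^ 2)) :
    N ^ 2 ≤ 4 ^ (D + 1) * D * j ^ (D + 3) * w ^ 2 * M * d ^ 2 := by
  have h1 : N ≤ 2 ^ (D + 1) * j ^ (D + 2) * d ^ D * w := by
    calc N ≤ j * (2 * (j * (j * (d + 1)) ^ D) * w) := hN.le
      _ ≤ j * (2 * (j * (j * (2 * d)) ^ D) * w) := by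
          gcongr
          omega
      _ = 2 ^ (D + 1) * j ^ (D + 2) * d ^ D * w := by
          rw [mul_pow, mul_pow]
          ring
  calc N ^ 2 ≤ (2 ^ (D + 1) * j ^ (D + 2) * d ^ D * w) ^ 2 := Nat.pow_le_pow_left h1 2
    _ = 4 ^ (D + 1) * j ^ (D + 3) * w ^ 2 * (j * (j * d) ^ D * d ^ D) := by
        have : (4 : ℕ) ^ (D + 1) = 2 ^ (D + 1) * 2 ^ (D + 1) := by
          rw [← mul_pow]; norm_num
        rw [this, mul_pow]
        ring
    _ ≤ 4 ^ (D + 1) * j ^ (D + 3) * w ^ 2 * (M * (D * d ^ 2)) := Nat.mul_le_mul_left _ hM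
    _ = 4 ^ (D + 1) * D * j ^ (D + 3) * w ^ 2 * M * d ^ 2 := by ring

theorem digit_le (D d j w N : ℕ) (hj : 1 ≤ j) (hw : 1 ≤ w)
    (h : j * (2 * (j * (j * d) ^ D) * w) ≤ N) : d ^ D ≤ N := by
  calc d ^ D ≤ (j * d) ^ D := Nat.pow_le_pow_left (Nat.le_mul_of_pos_left _ (by omega)) D
    _ ≤ j * (j * d) ^ D := Nat.le_mul_of_pos_left _ (by omega)
    _ ≤ 2 * (j * (j * d) ^ D) := by omega
    _ ≤ 2 * (j * (j * d) ^ D) * w := Nat.le_mul_of_pos_right _ (by omega)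
    _ ≤ j * (2 * (j * (j * d) ^ D) * w) := Nat.le_mul_of_pos_left _ (by omega)
    _ ≤ N := h

/-- The threshold. -/
theorem threshold_le (m S L : ℕ) (hL : 1 ≤ L) :
    2 ^ (m + 1) * (S * (2 ^ (m + 1) * (2 * m * (m * (4 * (m + 1) * L))) ^ m) ^ 2) ≤
      S * (2 * (16 * (m + 1) ^ 3 * L) ^ 2) ^ (m + 1) := by
  have h1 : (2 * m * (m * (4 * (m + 1) * L))) ^ m ≤ (8 * (m + 1) ^ 3 * L) ^ (m + 1) := by
    calc (2 * m * (m * (4 * (m + 1) * L))) ^ m ≤ (8 * (m + 1) ^ 3 * L) ^ m := by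
          apply Nat.pow_le_pow_left
          calc 2 * m * (m * (4 * (m + 1) * L)) = 8 * (m * m * (m + 1)) * L := by ring
            _ ≤ 8 * ((m + 1) * (m + 1) * (m + 1)) * L := by gcongr <;> omega
            _ = 8 * (m + 1) ^ 3 * L := by ring
      _ ≤ (8 * (m + 1) ^ 3 * L) ^ (m + 1) := by
          apply Nat.pow_le_pow_right _ (Nat.le_succ m)
          positivity
  calc 2 ^ (m + 1) * (S * (2 ^ (m + 1) * (2 * m * (m * (4 * (m + 1) * L))) ^ m) ^ 2)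
      ≤ 2 ^ (m + 1) * (S * (2 ^ (m + 1) * (8 * (m + 1) ^ 3 * L) ^ (m + 1)) ^ 2) := by gcongr
    _ = S * (2 * (16 * (m + 1) ^ 3 * L) ^ 2) ^ (m + 1) := by
        rw [← mul_pow, ← pow_mul, mul_comm (m + 1) 2, pow_mul, ← mul_assoc,
          mul_comm (2 ^ (m + 1)) S, mul_assoc, ← mul_pow]
        congr 3
        ring

/-- The exponent of the small probability. -/
theorem exponent_ok (m n S w L V : ℕ) (hm : m ≤ n) (hL : n < 2 ^ L) (hS : S < n ^ (m + 1))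
    (hw : (m + 1) * w ≤ n) (hL1 : 1 ≤ L) (hV : V ≤ ((m + 1) * w + 1) ^ m) :
    m ^ m * ((3 * S + 1) * V) < 2 ^ (4 * (m + 1) * L) := by
  have h1 : m ^ m ≤ (2 ^ L) ^ m := Nat.pow_le_pow_left (by omega) m
  have h2 : V ≤ (2 ^ L) ^ m := hV.trans (Nat.pow_le_pow_left (by omega) m)
  have h3 : 3 * S + 1 ≤ 4 * (2 ^ L) ^ (m + 1) := by
    have : n ^ (m + 1) ≤ (2 ^ L) ^ (m + 1) := Nat.pow_le_pow_left hL.le _
    omega
  calc m ^ m * ((3 * S + 1) * V) ≤ (2 ^ L) ^ m * (4 * (2 ^ L) ^ (m + 1) * (2 ^ L) ^ m) := by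
        gcongr
    _ = 2 ^ (L * (3 * m + 1) + 2) := by
        rw [← pow_mul, ← pow_mul]
        have : (4 : ℕ) = 2 ^ 2 := by norm_num
        rw [this, ← pow_add, ← pow_add, ← pow_add]
        congr 1
        ring
    _ < 2 ^ (4 * (m + 1) * L) := by
        apply Nat.pow_lt_pow_right (by norm_num)
        nlinarith

/-- Real powers. -/
theorem rpow_bound {ε : ℝ} (D d N A : ℕ) (hD1 : 1 ≤ D) (hD : 2 ≤ ε * D) (hN : 1 ≤ N)
    (hd : 1 ≤ d) (hdN : d ^ D ≤ N) (h : N ^ 2 ≤ A * d ^ 2) :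
    (N : ℝ) ^ (2 - ε) ≤ A := by
  have hN' : (1 : ℝ) ≤ N := by exact_mod_cast hN
  have hN0 : (0 : ℝ) < N := by linarith
  have hd' : (1 : ℝ) ≤ d := by exact_mod_cast hd
  have hDr : (0 : ℝ) < D := by
    have : (1 : ℝ) ≤ D := by exact_mod_cast hD1
    linarith
  have h1 : (d : ℝ) ^ 2 ≤ (N : ℝ) ^ ε := by
    have h2 : ((d : ℝ) ^ D) ≤ N := by exact_mod_cast hdN
    have h3 : (d : ℝ) ≤ (N : ℝ) ^ (1 / (D : ℝ)) := by
      calc (d : ℝ) = ((d : ℝ) ^ D) ^ (1 / (D : ℝ)) := by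
            rw [one_div, Real.pow_rpow_inv_natCast (by linarith) (by omega)]
        _ ≤ (N : ℝ) ^ (1 / (D : ℝ)) := by
            apply Real.rpow_le_rpow (by positivity) h2
            positivity
    calc (d : ℝ) ^ 2 ≤ ((N : ℝ) ^ (1 / (D : ℝ))) ^ 2 := by
          apply pow_le_pow_left₀ (by linarith) h3
      _ = (N : ℝ) ^ (2 / (D : ℝ)) := by
          rw [← Real.rpow_natCast, ← Real.rpow_mul hN0.le]
          congr 1
          push_cast
          ring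
      _ ≤ (N : ℝ) ^ ε := by
          apply Real.rpow_le_rpow_of_exponent_le hN'
          rw [div_le_iff₀ hDr]
          exact hD
  have h4 : (N : ℝ) ^ 2 ≤ A * (d : ℝ) ^ 2 := by exact_mod_cast h
  have h5 : (N : ℝ) ^ (2 - ε) * (N : ℝ) ^ ε = (N : ℝ) ^ 2 := by
    rw [← Real.rpow_add hN0, sub_add_cancel]
    norm_num
  have h6 : (0 : ℝ) < (N : ℝ) ^ ε := Real.rpow_pos_of_pos hN0 _
  have h7 : (N : ℝ) ^ (2 - ε) * (N : ℝ) ^ ε ≤ A * (N : ℝ) ^ ε := by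
    rw [h5]
    exact h4.trans (mul_le_mul_of_nonneg_left h1 (Nat.cast_nonneg A))
  exact le_of_mul_le_mul_right h7 h6

end Pool.Agent.T9h35.NearBF
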