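import Mathlib

/-!
The loss factor of the construction of Behrend.
-/

set_option autoImplicit false

namespace Pool.Agent.T9h35.NearBF

open Real

theorem log_three : (1 : ℝ) ≤ Real.log 3 := by
  have h : Real.exp 1 ≤ 3 := by
    have := Real.exp_one_lt_d9
    linarith
  calc (1 : ℝ) = Real.log (Real.exp 1) := (Real.log_exp 1).symm
    _ ≤ Real.log 3 := Real.log_le_log (Real.exp_pos 1) h

theorem log_two_le : Real.log 2 ≤ 7 / 10 := by
  have := Real.log_two_lt_d9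
  linarith

theorem nat_pow_le_exp {a e : ℕ} {y : ℝ} (ha : 1 ≤ a) (h : e * Real.log a ≤ y) :
    (a : ℝ) ^ e ≤ Real.exp y := by
  have ha' : (0 : ℝ) < a := by exact_mod_cast ha
  calc (a : ℝ) ^ e = Real.exp (e * Real.log a) := by
        rw [mul_comm, Real.exp_mul, Real.exp_log ha', Real.rpow_natCast]
    _ ≤ Real.exp y := Real.exp_le_exp.2 h

/-- The choice of the number of digits. -/
theorem digits_choice (n j : ℕ) (hj : 3 ≤ j) (hjn : j ≤ n) :
    ∃ (D : ℕ) (a b : ℝ), 1 ≤ D ∧ 1 ≤ b ∧ b ≤ a ∧ a ^ 2 = Real.log n ∧ b ^ 2 = Real.log j ∧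
      √(Real.log n * Real.log j) = a * b ∧ (D : ℝ) * b ≤ 2 * a ∧ a ≤ D * b := by
  have hj' : (3 : ℝ) ≤ j := by exact_mod_cast hj
  have hn' : (j : ℝ) ≤ n := by exact_mod_cast hjn
  have h1 : 1 ≤ Real.log j := log_three.trans (Real.log_le_log (by norm_num) hj')
  have h2 : Real.log j ≤ Real.log n := Real.log_le_log (by linarith) hn'
  obtain ⟨a, ha⟩ : ∃ a, a = √(Real.log n) := ⟨_, rfl⟩
  obtain ⟨b, hb⟩ : ∃ b, b = √(Real.log j) := ⟨_, rfl⟩
  have ha2 : a ^ 2 = Real.log n := by rw [ha, Real.sq_sqrt (by linarith)]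
  have hb2 : b ^ 2 = Real.log j := by rw [hb, Real.sq_sqrt (by linarith)]
  have hb1 : 1 ≤ b := by
    rw [hb, Real.one_le_sqrt]
    exact h1
  have hba : b ≤ a := by
    rw [ha, hb]
    exact Real.sqrt_le_sqrt h2
  have hb0 : 0 < b := by linarith
  refine ⟨⌈a / b⌉₊, a, b, ?_, hb1, hba, ha2, hb2, ?_, ?_, ?_⟩
  · rw [Nat.one_le_ceil_iff]
    exact div_pos (by linarith) hb0
  · rw [Real.sqrt_mul (by linarith), ← ha, ← hb]
  · have h3 : (⌈a / b⌉₊ : ℝ) < a / b + 1 := Nat.ceil_lt_add_one (div_nonneg (by linarith) hb0.le)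
    have h4 : (a / b + 1) * b = a + b := by
      field_simp
    nlinarith
  · have h3 : a / b ≤ (⌈a / b⌉₊ : ℝ) := Nat.le_ceil _
    rwa [div_le_iff₀ hb0] at h3

theorem log2_le (n : ℕ) {a : ℝ} (ha : 1 ≤ a) (ha2 : a ^ 2 = Real.log n) (hn : 1 ≤ n) :
    ((Nat.log 2 n + 1 : ℕ) : ℝ) ^ 4 ≤ Real.exp (12 * a) := by
  have h1 : (2 : ℝ) ^ (Nat.log 2 n) ≤ n := by exact_mod_cast Nat.pow_log_le_self 2 (by omega)
  have h2 : (Nat.log 2 n : ℝ) * Real.log 2 ≤ a ^ 2 := by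
    rw [ha2, ← Real.log_pow]
    exact Real.log_le_log (by positivity) h1
  have h3 : (1 : ℝ) / 2 ≤ Real.log 2 := by
    have := Real.log_two_gt_d9
    linarith
  have h4 : (Nat.log 2 n : ℝ) ≤ 2 * a ^ 2 := by
    have h0 : (0 : ℝ) ≤ Nat.log 2 n := Nat.cast_nonneg _
    nlinarith
  have h5 : ((Nat.log 2 n + 1 : ℕ) : ℝ) ≤ 3 * a ^ 2 := by
    push_cast
    nlinarith
  have h6 : 3 * a ^ 2 ≤ Real.exp (3 * a) := by
    have h7 := Real.quadratic_le_exp_of_nonneg (x := 3 * a) (by linarith)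
    nlinarith
  calc ((Nat.log 2 n + 1 : ℕ) : ℝ) ^ 4 ≤ (Real.exp (3 * a)) ^ 4 :=
        pow_le_pow_left₀ (Nat.cast_nonneg _) (h5.trans h6) 4
    _ = Real.exp (12 * a) := by
        rw [← Real.exp_nat_mul]
        congr 1
        push_cast
        ring

/-- The common factor. -/
theorem common_bound (n j : ℕ) (hj : 1 ≤ j) (hn : 1 ≤ n) {a b : ℝ} (hb1 : 1 ≤ b) (hba : b ≤ a)
    (ha2 : a ^ 2 = Real.log n) (hb2 : b ^ 2 = Real.log j) :
    ((4 * 16 ^ 4 : ℕ) : ℝ) * (j : ℝ) ^ 12 * ((Nat.log 2 n + 1 : ℕ) : ℝ) ^ 4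
      ≤ Real.exp (37 * (a * b)) := by
  have hab : 1 ≤ a * b := by nlinarith
  have h1 : ((4 * 16 ^ 4 : ℕ) : ℝ) ≤ Real.exp (13 * (a * b)) := by
    have : ((4 * 16 ^ 4 : ℕ) : ℝ) = ((2 : ℕ) : ℝ) ^ 18 := by norm_num
    rw [this]
    apply nat_pow_le_exp (by norm_num)
    have := log_two_le
    push_cast
    nlinarith
  have h2 : (j : ℝ) ^ 12 ≤ Real.exp (12 * (a * b)) := by
    apply nat_pow_le_exp hj
    rw [← hb2]
    push_cast
    nlinarith
  have h3 : ((Nat.log 2 n + 1 : ℕ) : ℝ) ^ 4 ≤ Real.exp (12 * (a * b)) := by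
    refine (log2_le n (by linarith) ha2 hn).trans (Real.exp_le_exp.2 ?_)
    nlinarith
  calc ((4 * 16 ^ 4 : ℕ) : ℝ) * (j : ℝ) ^ 12 * ((Nat.log 2 n + 1 : ℕ) : ℝ) ^ 4
      ≤ Real.exp (13 * (a * b)) * Real.exp (12 * (a * b)) * Real.exp (12 * (a * b)) := by
        gcongr
    _ = Real.exp (37 * (a * b)) := by
        rw [← Real.exp_add, ← Real.exp_add]
        congr 1
        ring

theorem main_bound (n j D d : ℕ) (hj : 1 ≤ j) {a b : ℝ} (hb1 : 1 ≤ b) (hba : b ≤ a)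
    (ha2 : a ^ 2 = Real.log n) (hb2 : b ^ 2 = Real.log j) (hD : 1 ≤ D) (hd1 : 1 ≤ d)
    (hD1 : (D : ℝ) * b ≤ 2 * a) (hD2 : a ≤ D * b) (hd : d ^ D ≤ n) :
    ((4 ^ (D + 1) * D * j ^ (D + 3) * d ^ 2 : ℕ) : ℝ) ≤ Real.exp (18 * (a * b)) := by
  have hab : 1 ≤ a * b := by nlinarith
  have hD' : (1 : ℝ) ≤ D := by exact_mod_cast hD
  have hDab : (D : ℝ) ≤ 2 * (a * b) := by nlinarith
  have h1 : ((4 : ℕ) : ℝ) ^ (D + 1) ≤ Real.exp (6 * (a * b)) := by
    apply nat_pow_le_exp (by norm_num)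
    have h : Real.log ((4 : ℕ) : ℝ) = 2 * Real.log 2 := by
      have : ((4 : ℕ) : ℝ) = 2 ^ 2 := by norm_num
      rw [this, Real.log_pow]
      push_cast
      ring
    rw [h]
    have := log_two_le
    have h0 : 0 ≤ Real.log 2 := Real.log_nonneg (by norm_num)
    push_cast
    nlinarith
  have h2 : (D : ℝ) ≤ Real.exp (2 * (a * b)) := by
    have := Real.add_one_le_exp (2 * (a * b))
    linarith
  have h3 : (j : ℝ) ^ (D + 3) ≤ Real.exp (8 * (a * b)) := by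
    apply nat_pow_le_exp hj
    rw [← hb2]
    push_cast
    have : (D : ℝ) * b ^ 2 ≤ 2 * (a * b) := by nlinarith
    nlinarith
  have h4 : (d : ℝ) ^ 2 ≤ Real.exp (2 * (a * b)) := by
    apply nat_pow_le_exp hd1
    have h5 : (D : ℝ) * Real.log d ≤ a ^ 2 := by
      rw [ha2, ← Real.log_pow]
      apply Real.log_le_log
      · have : (0 : ℝ) < d := by exact_mod_cast hd1
        positivity
      · exact_mod_cast hd
    have h6 : 0 ≤ Real.log d := Real.log_nonneg (by exact_mod_cast hd1)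
    have ha0 : 0 < a := by linarith
    push_cast
    -- a * log d ≤ D * b * log d ≤ b * a ^ 2
    have h7 : a * Real.log d ≤ a * (a * b) := by
      calc a * Real.log d ≤ (D * b) * Real.log d := mul_le_mul_of_nonneg_right hD2 h6
        _ = b * (D * Real.log d) := by ring
        _ ≤ b * a ^ 2 := mul_le_mul_of_nonneg_left h5 (by linarith)
        _ = a * (a * b) := by ring
    have h8 := le_of_mul_le_mul_left h7 ha0
    linarith
  push_cast at h1 ⊢
  calc (4 : ℝ) ^ (D + 1) * D * (j : ℝ) ^ (D + 3) * (d : ℝ) ^ 2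
      ≤ Real.exp (6 * (a * b)) * Real.exp (2 * (a * b)) * Real.exp (8 * (a * b)) *
        Real.exp (2 * (a * b)) := by gcongr
    _ = Real.exp (18 * (a * b)) := by
        rw [← Real.exp_add, ← Real.exp_add, ← Real.exp_add]
        congr 1
        ring

theorem small_bound (j D : ℕ) (hj : 1 ≤ j) {a b : ℝ} (hb1 : 1 ≤ b) (hba : b ≤ a)
    (hb2 : b ^ 2 = Real.log j) (hD : 1 ≤ D) (hD1 : (D : ℝ) * b ≤ 2 * a) :
    ((4 * j ^ (2 * D + 4) : ℕ) : ℝ) ≤ Real.exp (18 * (a * b)) := by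
  have hab : 1 ≤ a * b := by nlinarith
  have hD' : (1 : ℝ) ≤ D := by exact_mod_cast hD
  have h1 : (4 : ℝ) ≤ Real.exp (3 * (a * b)) := by
    have := Real.add_one_le_exp (3 * (a * b))
    linarith
  have h3 : (j : ℝ) ^ (2 * D + 4) ≤ Real.exp (12 * (a * b)) := by
    apply nat_pow_le_exp hj
    rw [← hb2]
    push_cast
    have : (D : ℝ) * b ^ 2 ≤ 2 * (a * b) := by nlinarith
    nlinarith
  push_cast
  calc (4 : ℝ) * (j : ℝ) ^ (2 * D + 4) ≤ Real.exp (3 * (a * b)) * Real.exp (12 * (a * b)) := by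
        gcongr
    _ = Real.exp (15 * (a * b)) := by
        rw [← Real.exp_add]
        congr 1
        ring
    _ ≤ Real.exp (18 * (a * b)) := Real.exp_le_exp.2 (by nlinarith)

end Pool.Agent.T9h35.NearBF
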