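import Pool.Agent.T9h35.NearBF.Chain
import Pool.Agent.T9h35.NearBF.Arith
import Pool.Agent.T9h35.NearBF.ArithExp

/-!
Clique with few negations: the lower bound with the near optimal exponent.
-/

set_option autoImplicit false

namespace Pool.Agent.T9h35.NearBF

open Finset Pool.Agent.T9h34 Pool.Agent.T9h35.Sharp

/-- The graph property which the circuit decides. -/
def HasClique {n : ℕ} (k : ℕ) (G : SimpleGraph (Fin n)) : Prop :=
  ∃ c : Finset (Fin n), G.IsClique (c : Set (Fin n)) ∧ k ≤ c.card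

theorem not_hasClique_bot {n k : ℕ} (hk : 2 ≤ k) : ¬ HasClique k (⊥ : SimpleGraph (Fin n)) := by
  rintro ⟨c, hc, hk'⟩
  obtain ⟨a, ha, b, hb, hab⟩ := one_lt_card.1 (by omega : 1 < c.card)
  exact hc ha hb hab

/-- The size of the parts. -/
theorem width_bound (S m L w T : ℕ) (hwT : w ^ (m + 1) ≤ 2 ^ (m + 1) * T)
    (hT : 2 ^ (m + 1) * T ≤ S * (2 * (16 * (m + 1) ^ 3 * L) ^ 2) ^ (m + 1)) :
    (w ^ 2) ^ (m + 1) ≤ S ^ 2 * ((4 * 16 ^ 4) * (m + 1) ^ 12 * L ^ 4) ^ (m + 1) := by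
  have f : (2 * (16 * (m + 1) ^ 3 * L) ^ 2) ^ 2 = (4 * 16 ^ 4) * (m + 1) ^ 12 * L ^ 4 := by ring
  calc (w ^ 2) ^ (m + 1) = (w ^ (m + 1)) ^ 2 := by rw [← pow_mul, ← pow_mul, mul_comm]
    _ ≤ (S * (2 * (16 * (m + 1) ^ 3 * L) ^ 2) ^ (m + 1)) ^ 2 :=
        Nat.pow_le_pow_left (hwT.trans hT) 2
    _ = S ^ 2 * ((2 * (16 * (m + 1) ^ 3 * L) ^ 2) ^ 2) ^ (m + 1) := by
        rw [mul_pow, ← pow_mul, ← pow_mul, mul_comm (m + 1) 2]
    _ = _ := by rw [f]

/-- From the bound for the square to the final inequality. -/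
theorem final_step (j S N w M B C₀ : ℕ) (x y : ℝ) (hN : N ^ 2 ≤ w ^ 2 * (M * B))
    (hw : (w ^ 2) ^ j ≤ S ^ 2 * C₀ ^ j) (hC : (C₀ : ℝ) ≤ x) (hB : (B : ℝ) ≤ y) :
    (N : ℝ) ^ (2 * j) ≤ (S : ℝ) ^ 2 * (x * y * M) ^ j := by
  have h1 : N ^ (2 * j) ≤ S ^ 2 * (C₀ * (M * B)) ^ j := by
    calc N ^ (2 * j) = (N ^ 2) ^ j := by rw [pow_mul]
      _ ≤ (w ^ 2 * (M * B)) ^ j := Nat.pow_le_pow_left hN j
      _ = (w ^ 2) ^ j * (M * B) ^ j := mul_pow _ _ _
      _ ≤ S ^ 2 * C₀ ^ j * (M * B) ^ j := Nat.mul_le_mul_right _ hw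
      _ = S ^ 2 * (C₀ * (M * B)) ^ j := by rw [mul_assoc, ← mul_pow]
  have h2 : (N : ℝ) ^ (2 * j) ≤ (S : ℝ) ^ 2 * (C₀ * (M * B)) ^ j := by exact_mod_cast h1
  refine h2.trans ?_
  have h3 : (C₀ : ℝ) * (M * B) ≤ x * y * M := by
    have hx : 0 ≤ x := (Nat.cast_nonneg C₀).trans hC
    calc (C₀ : ℝ) * (M * B) ≤ x * (M * y) := by gcongr
      _ = x * y * M := by ring
  gcongr

theorem main (n k j : ℕ) (hj : 3 ≤ j) (hjk : j ≤ k) (C : Circuit (Pair n))
    (hC : ∀ G : SimpleGraph (Fin n), C.eval (edgeValues G) = true ↔ HasClique k G) :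
    ∃ (m : ℕ) (G : ℕ → SimpleGraph (Fin n)), (∀ i, G i ≤ G (i + 1)) ∧
      (∀ i, ¬ HasClique k (G i)) ∧
      (∀ i < m, C.reads (edgeValues (G i)) ≠ C.reads (edgeValues (G (i + 1)))) ∧
      m + 1 ≤ (C.gates.map fun g => g.args.length + 1).prod ∧
      ((n - k : ℕ) : ℝ) ^ (2 * j) ≤ ((C.size + C.numReads + 1 : ℕ) : ℝ) ^ 2 *
        (Real.exp (55 * √(Real.log n * Real.log j)) * (m + 1)) ^ j := by
  obtain ⟨S, hS⟩ : ∃ S, S = C.size + C.numReads + 1 := ⟨_, rfl⟩
  obtain ⟨N, hN⟩ : ∃ N, N = n - k := ⟨_, rfl⟩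
  rw [← hS, ← hN]
  have hexp1 : (1 : ℝ) ≤ Real.exp (55 * √(Real.log n * Real.log j)) := Real.one_le_exp (by positivity)
  have hS1 : 1 ≤ S := by omega
  have hS1' : (1 : ℝ) ≤ S := by exact_mod_cast hS1
  have htriv : (N : ℝ) ^ (2 * j) ≤ (S : ℝ) ^ 2 *
        (Real.exp (55 * √(Real.log n * Real.log j))) ^ j →
      ∃ (m : ℕ) (G : ℕ → SimpleGraph (Fin n)), (∀ i, G i ≤ G (i + 1)) ∧
      (∀ i, ¬ HasClique k (G i)) ∧
      (∀ i < m, C.reads (edgeValues (G i)) ≠ C.reads (edgeValues (G (i + 1)))) ∧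
      m + 1 ≤ (C.gates.map fun g => g.args.length + 1).prod ∧
      (N : ℝ) ^ (2 * j) ≤ (S : ℝ) ^ 2 *
        (Real.exp (55 * √(Real.log n * Real.log j)) * (m + 1)) ^ j := by
    intro h
    refine ⟨0, fun _ => ⊥, fun _ => le_rfl, fun _ => not_hasClique_bot (by omega),
      fun i hi => absurd hi (by omega), ?_, ?_⟩
    · exact changes_le C (fun _ => edgeValues ⊥) (fun _ _ h => h) 0
        (fun i hi => absurd hi (by omega))
    · rw [Nat.cast_zero, zero_add, mul_one]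
      exact h
  rcases Nat.eq_zero_or_pos N with h0 | hN1
  · apply htriv
    rw [h0, Nat.cast_zero, zero_pow (by omega)]
    positivity
  have hjn : j ≤ n := by omega
  obtain ⟨L, hL⟩ : ∃ L, L = Nat.log 2 n + 1 := ⟨_, rfl⟩
  have hL1 : 1 ≤ L := by omega
  have hnL : n < 2 ^ L := by
    rw [hL]
    exact Nat.lt_pow_succ_log_self (by norm_num) n
  by_cases hSn : n ^ j ≤ S
  · apply htriv
    have h1 : N ^ j ≤ S := (Nat.pow_le_pow_left (by omega) j).trans hSn
    have h2 : (N : ℝ) ^ j ≤ S := by exact_mod_cast h1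
    calc (N : ℝ) ^ (2 * j) = ((N : ℝ) ^ j) ^ 2 := by rw [← pow_mul, mul_comm]
      _ ≤ (S : ℝ) ^ 2 := pow_le_pow_left₀ (by positivity) h2 2
      _ = (S : ℝ) ^ 2 * 1 := (mul_one _).symm
      _ ≤ _ := by
          apply mul_le_mul_of_nonneg_left _ (by positivity)
          exact one_le_pow₀ hexp1
  · rw [not_le] at hSn
    obtain ⟨D, a, b, hD, hb1, hba, ha2, hb2, hsqrt, hD1, hD2⟩ := digits_choice n j hj hjn
    rw [hsqrt] at htriv ⊢
    obtain ⟨m, rfl⟩ : ∃ m, j = m + 1 := ⟨j - 1, by omega⟩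
    obtain ⟨r, hr⟩ : ∃ r, r = 4 * (m + 1) * L := ⟨_, rfl⟩
    obtain ⟨T, hT⟩ : ∃ T, T = S * (2 ^ (m + 1) * (2 * m * (m * r)) ^ m) ^ 2 := ⟨_, rfl⟩
    have hr1 : 1 ≤ r := by
      rw [hr]
      have : 0 < 4 * (m + 1) * L := by positivity
      omega
    have hT1 : 1 ≤ T := by
      rw [hT]
      have hm : 0 < m := by omega
      have hr0 : 0 < r := hr1
      have : 0 < S * (2 ^ (m + 1) * (2 * m * (m * r)) ^ m) ^ 2 := by positivity
      omega
    obtain ⟨w, hw1, hTw, hwT⟩ := root_exists T (m + 1) hT1 (by omega)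
    obtain ⟨c, hc⟩ : ∃ c, c = 4 * 16 ^ 4 := ⟨_, rfl⟩
    have hw2 : (w ^ 2) ^ (m + 1) ≤ S ^ 2 * (c * (m + 1) ^ 12 * L ^ 4) ^ (m + 1) := by
      rw [hc]
      apply width_bound S m L w T hwT
      rw [hT, hr]
      exact threshold_le m S L hL1
    have hcommon : ((c * (m + 1) ^ 12 * L ^ 4 : ℕ) : ℝ) ≤ Real.exp (37 * (a * b)) := by
      have := common_bound n (m + 1) (by omega) (by omega) hb1 hba ha2 hb2
      rw [← hL, ← hc] at this
      push_cast at this ⊢
      exact this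
    have hexp : Real.exp (37 * (a * b)) * Real.exp (18 * (a * b)) = Real.exp (55 * (a * b)) := by
      rw [← Real.exp_add]
      congr 1
      ring
    by_cases hfit : (m + 1) * (2 * ((m + 1) * ((m + 1) * 1) ^ D) * w) ≤ N
    · obtain ⟨d, hd1, hdN, hNd⟩ := digit_exists D (m + 1) w N hD (by omega) hw1 hfit
      obtain ⟨I, _, ⟨σ⟩, hM⟩ := exists_sys D d (m + 1) hD hd1 (by omega)
      have hjw : (m + 1) * w ≤ n := by
        have h1 : 1 ≤ 2 * ((m + 1) * ((m + 1) * d) ^ D) := by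
          have : 0 < 2 * ((m + 1) * ((m + 1) * d) ^ D) := by positivity
          omega
        calc (m + 1) * w = (m + 1) * (1 * w) := by ring
          _ ≤ (m + 1) * (2 * ((m + 1) * ((m + 1) * d) ^ D) * w) := by gcongr
          _ ≤ N := hdN
          _ ≤ n := by omega
      have hkn : (m + 1) * (2 * ((m + 1) * ((m + 1) * d) ^ D) * w) + (k - (m + 1)) ≤ n := by
        omega
      have hcardV : Fintype.card (Vx (m + 1) w) = (m + 1) * w := by
        rw [Fintype.card_prod, Fintype.card_fin, Fintype.card_fin]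
      obtain ⟨G, hG1, hG2, hG3⟩ := chain_clique n k m w _ r σ (by omega) hjk hr1 hkn C hC (by
        rw [← hS, hr]
        apply exponent_ok m n S w L _ (by omega) hnL hSn hjw hL1
        have := NS_le (Vx (m + 1) w) m
        rwa [hcardV] at this) (by
        rw [← hS, ← hT]
        exact hTw)
      have hcount : Fintype.card I + 1 ≤ (C.gates.map fun g => g.args.length + 1).prod := by
        apply changes_le C (fun i => edgeValues (G i)) _ _ hG3
        intro i e he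
        simp only [edgeValues, decide_eq_true_eq] at he ⊢
        exact hG1 i he
      refine ⟨Fintype.card I, G, hG1, hG2, hG3, hcount, ?_⟩
      have hdn : d ^ D ≤ n := (digit_le D d (m + 1) w N (by omega) hw1 hdN).trans (by omega)
      have hB := main_bound n (m + 1) D d (by omega) hb1 hba ha2 hb2 hD hd1 hD1 hD2 hdn
      have hsq : N ^ 2 ≤ w ^ 2 * (Fintype.card I *
          (4 ^ (D + 1) * D * (m + 1) ^ (D + 3) * d ^ 2)) := by
        refine (square_bound D d (m + 1) w N (Fintype.card I) hd1 hNd hM).trans (le_of_eq ?_)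
        ring
      have h := final_step (m + 1) S N w (Fintype.card I) _ _ _ _ hsq hw2 hcommon hB
      rw [hexp] at h
      refine h.trans ?_
      gcongr
      linarith
    · rw [not_le] at hfit
      apply htriv
      have hB := small_bound (m + 1) D (by omega) hb1 hba hb2 hD hD1
      have hsq : N ^ 2 ≤ w ^ 2 * (1 * (4 * (m + 1) ^ (2 * D + 4))) := by
        calc N ^ 2 ≤ ((m + 1) * (2 * ((m + 1) * ((m + 1) * 1) ^ D) * w)) ^ 2 :=
              Nat.pow_le_pow_left hfit.le 2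
          _ = w ^ 2 * (1 * (4 * (m + 1) ^ (2 * D + 4))) := by
              rw [mul_one]
              ring
      have h := final_step (m + 1) S N w 1 _ _ _ _ hsq hw2 hcommon hB
      rw [hexp, Nat.cast_one, mul_one] at h
      exact h

end Pool.Agent.T9h35.NearBF
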