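import Mathlib

/-!
Systems of groups in `j` parts such that the blocks pairwise share at most one group and there are no
triangles of blocks (the construction of Ruzsa and Szemerédi, with Behrend's sphere).
-/

set_option autoImplicit false

namespace Pool.Agent.T9h35.NearBF

open Finset

/-- A block system. -/
structure Sys (I : Type) (j p : ℕ) where
  grp : I → Fin j → Fin p
  lin : ∀ β β' i i', i < i' → grp β i = grp β' i → grp β i' = grp β' i' → β = β'
  tri : ∀ β₁ β₂ β₃ i₁ i₂ i₃, i₁ < i₂ → i₂ < i₃ → grp β₁ i₁ = grp β₃ i₁ → grp β₁ i₂ = grp β₂ i₂ →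
    grp β₂ i₃ = grp β₃ i₃ → β₁ = β₃ ∧ β₂ = β₃

theorem map_lt {D c : ℕ} (x : Fin D → ℕ) (hx : ∀ i, x i < c) : Behrend.map c x < c ^ D := by
  induction D with
  | zero => simp [Behrend.map]
  | succ D ih =>
    rw [Behrend.map_succ']
    have h1 := ih (x ∘ Fin.succ) (fun i => hx _)
    have h2 := hx 0
    have h3 : Behrend.map c (x ∘ Fin.succ) + 1 ≤ c ^ D := h1
    calc x 0 + Behrend.map c (x ∘ Fin.succ) * c < c + Behrend.map c (x ∘ Fin.succ) * c := by omega
      _ = (Behrend.map c (x ∘ Fin.succ) + 1) * c := by ring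
      _ ≤ c ^ D * c := Nat.mul_le_mul_right _ h3
      _ = c ^ (D + 1) := by ring

theorem bmap_nsmul {D c x : ℕ} (b : Fin D → ℕ) : Behrend.map c (x • b) = x * Behrend.map c b := by
  rw [_root_.map_nsmul, smul_eq_mul]

/-- Strict convexity of the sphere. -/
theorem sphere_convex {D d k x y : ℕ} {b₁ b₂ b₃ : Fin D → ℕ} (h₁ : b₁ ∈ Behrend.sphere D d k)
    (h₂ : b₂ ∈ Behrend.sphere D d k) (h₃ : b₃ ∈ Behrend.sphere D d k) (hx : 1 ≤ x) (hy : 1 ≤ y)
    (h : x • b₁ + y • b₂ = (x + y) • b₃) : b₁ = b₃ ∧ b₂ = b₃ := by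
  have e₁ : ∑ i, (b₁ i : ℝ) ^ 2 = k := by
    have := (mem_filter.1 h₁).2
    exact_mod_cast this
  have e₂ : ∑ i, (b₂ i : ℝ) ^ 2 = k := by
    have := (mem_filter.1 h₂).2
    exact_mod_cast this
  have e₃ : ∑ i, (b₃ i : ℝ) ^ 2 = k := by
    have := (mem_filter.1 h₃).2
    exact_mod_cast this
  have hi : ∀ i, (x : ℝ) * b₁ i + y * b₂ i = (x + y) * b₃ i := by
    intro i
    have := congrFun h i
    simp only [Pi.add_apply, Pi.smul_apply, smul_eq_mul] at this
    exact_mod_cast this
  have hx' : (1 : ℝ) ≤ x := by exact_mod_cast hx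
  have hy' : (1 : ℝ) ≤ y := by exact_mod_cast hy
  have key : ∑ i, (x : ℝ) * y * ((b₁ i : ℝ) - b₂ i) ^ 2 = 0 := by
    have h5 : ∀ i, (x : ℝ) * y * ((b₁ i : ℝ) - b₂ i) ^ 2
        = (x + y) * x * (b₁ i : ℝ) ^ 2 + (x + y) * y * (b₂ i : ℝ) ^ 2
          - (x + y) ^ 2 * (b₃ i : ℝ) ^ 2 := by
      intro i
      have h6 := hi i
      have h7 : ((x : ℝ) + y) ^ 2 * (b₃ i : ℝ) ^ 2 = (x * b₁ i + y * b₂ i) ^ 2 := by
        rw [h6]; ring
      rw [h7]
      ring
    rw [sum_congr rfl fun i _ => h5 i, sum_sub_distrib, sum_add_distrib, ← mul_sum, ← mul_sum,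
      ← mul_sum, e₁, e₂, e₃]
    ring
  have h12 : b₁ = b₂ := by
    funext i
    have h8 := (sum_eq_zero_iff_of_nonneg (fun i _ => by positivity)).1 key i (mem_univ i)
    have h9 : ((b₁ i : ℝ) - b₂ i) ^ 2 = 0 := by
      rcases mul_eq_zero.1 h8 with h9 | h9
      · exfalso
        have : (0 : ℝ) < x * y := by positivity
        exact this.ne' h9
      · exact h9
    have h10 : (b₁ i : ℝ) = b₂ i := by
      have := pow_eq_zero_iff (two_ne_zero) |>.1 h9
      linarith
    exact_mod_cast h10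
  subst h12
  have h13 : b₁ = b₃ := by
    funext i
    have h6 := hi i
    have : ((x : ℝ) + y) * (b₁ i - b₃ i) = 0 := by linarith
    rcases mul_eq_zero.1 this with h9 | h9
    · exfalso
      have : (0 : ℝ) < x + y := by positivity
      exact this.ne' h9
    · have : (b₁ i : ℝ) = b₃ i := by linarith
      exact_mod_cast this
  exact ⟨h13, h13⟩

/-- Weighted averages without carries. -/
theorem no_carry {D d k j x y : ℕ} {b₁ b₂ b₃ : Fin D → ℕ} (h₁ : b₁ ∈ Behrend.sphere D d k)
    (h₂ : b₂ ∈ Behrend.sphere D d k) (h₃ : b₃ ∈ Behrend.sphere D d k) (hx : 1 ≤ x) (hy : 1 ≤ y)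
    (hxy : x + y ≤ j)
    (h : x * Behrend.map (j * d) b₁ + y * Behrend.map (j * d) b₂
      = (x + y) * Behrend.map (j * d) b₃) : b₁ = b₃ ∧ b₂ = b₃ := by
  have d₁ := Behrend.mem_box.1 (Behrend.sphere_subset_box h₁)
  have d₂ := Behrend.mem_box.1 (Behrend.sphere_subset_box h₂)
  have d₃ := Behrend.mem_box.1 (Behrend.sphere_subset_box h₃)
  apply sphere_convex h₁ h₂ h₃ hx hy
  apply Behrend.map_injOn (d := j * d)
  · intro i
    simp only [Pi.add_apply, Pi.smul_apply, smul_eq_mul]
    have e₁ := d₁ i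
    have e₂ := d₂ i
    calc x * b₁ i + y * b₂ i < x * d + y * d :=
          Nat.add_lt_add (Nat.mul_lt_mul_of_pos_left e₁ hx) (Nat.mul_lt_mul_of_pos_left e₂ hy)
      _ = (x + y) * d := by ring
      _ ≤ j * d := Nat.mul_le_mul_right _ hxy
  · intro i
    simp only [Pi.smul_apply, smul_eq_mul]
    calc (x + y) * b₃ i < (x + y) * d := Nat.mul_lt_mul_of_pos_left (d₃ i) (by omega)
      _ ≤ j * d := Nat.mul_le_mul_right _ hxy
  · rw [map_add, bmap_nsmul, bmap_nsmul, bmap_nsmul]
    exact h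

/-- The Ruzsa–Szemerédi system. -/
theorem exists_sys (D d j : ℕ) (hD : 1 ≤ D) (hd : 1 ≤ d) (hj : 1 ≤ j) :
    ∃ (I : Type) (_ : Fintype I), Nonempty (Sys I j (2 * (j * (j * d) ^ D))) ∧
      j * (j * d) ^ D * d ^ D ≤ Fintype.card I * (D * d ^ 2) := by
  obtain ⟨k, hk⟩ := Behrend.exists_large_sphere D d
  have hpow : 0 < (j * d) ^ D := Nat.pow_pos (Nat.mul_pos (by omega) (by omega))
  refine ⟨Fin (j * (j * d) ^ D) × {b // b ∈ Behrend.sphere D d k}, inferInstance, ⟨?_⟩, ?_⟩
  · have hlt : ∀ (b : {b // b ∈ Behrend.sphere D d k}),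
        Behrend.map (j * d) b.1 < (j * d) ^ D := by
      intro b
      apply map_lt
      intro i
      have := Behrend.mem_box.1 (Behrend.sphere_subset_box b.2) i
      exact lt_of_lt_of_le this (Nat.le_mul_of_pos_left _ (by omega))
    refine ⟨fun β i => ⟨β.1.val + i.val * Behrend.map (j * d) β.2.1, ?_⟩, ?_, ?_⟩
    · have h1 := β.1.2
      have h2 := hlt β.2
      have h3 : i.val * Behrend.map (j * d) β.2.1 ≤ j * (j * d) ^ D :=
        Nat.mul_le_mul i.2.le h2.le
      omega
    · rintro ⟨a, b, hb⟩ ⟨a', b', hb'⟩ i i' hii h1 h2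
      simp only [Fin.mk.injEq] at h1 h2
      have h3 : (i'.val - i.val) * Behrend.map (j * d) b
          = (i'.val - i.val) * Behrend.map (j * d) b' := by
        have hlt : i.val < i'.val := hii
        rw [Nat.sub_mul, Nat.sub_mul]
        have e1 : i.val * Behrend.map (j * d) b ≤ i'.val * Behrend.map (j * d) b :=
          Nat.mul_le_mul_right _ hlt.le
        have e2 : i.val * Behrend.map (j * d) b' ≤ i'.val * Behrend.map (j * d) b' :=
          Nat.mul_le_mul_right _ hlt.le
        omega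
      have h4 : Behrend.map (j * d) b = Behrend.map (j * d) b' := by
        have hlt : i.val < i'.val := hii
        exact Nat.eq_of_mul_eq_mul_left (by omega) h3
      have h5 : b = b' := by
        apply Behrend.map_injOn (d := j * d) _ _ h4
        · intro t
          exact lt_of_lt_of_le (Behrend.mem_box.1 (Behrend.sphere_subset_box hb) t)
            (Nat.le_mul_of_pos_left _ (by omega))
        · intro t
          exact lt_of_lt_of_le (Behrend.mem_box.1 (Behrend.sphere_subset_box hb') t)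
            (Nat.le_mul_of_pos_left _ (by omega))
      subst h5
      have h6 : a = a' := Fin.ext (by omega)
      rw [h6]
    · rintro ⟨a₁, b₁, hb₁⟩ ⟨a₂, b₂, hb₂⟩ ⟨a₃, b₃, hb₃⟩ i₁ i₂ i₃ h12 h23 e1 e2 e3
      simp only [Fin.mk.injEq] at e1 e2 e3
      have hl12 : i₁.val < i₂.val := h12
      have hl23 : i₂.val < i₃.val := h23
      obtain ⟨x, hx⟩ : ∃ x, i₂.val = i₁.val + x := ⟨i₂.val - i₁.val, by omega⟩
      obtain ⟨y, hy⟩ : ∃ y, i₃.val = i₁.val + x + y := ⟨i₃.val - i₂.val, by omega⟩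
      have hx1 : 1 ≤ x := by omega
      have hy1 : 1 ≤ y := by omega
      have hxy : x + y ≤ j := by have := i₃.2; omega
      have hsum : x * Behrend.map (j * d) b₁ + y * Behrend.map (j * d) b₂
          = (x + y) * Behrend.map (j * d) b₃ := by
        rw [hx] at e2
        rw [hy] at e3
        have f1 : a₁.val + i₁.val * Behrend.map (j * d) b₁ + x * Behrend.map (j * d) b₁
            = a₂.val + (i₁.val + x) * Behrend.map (j * d) b₂ := by
          rw [← e2]; ring
        have f2 : a₂.val + (i₁.val + x) * Behrend.map (j * d) b₂ + y * Behrend.map (j * d) b₂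
            = a₃.val + i₁.val * Behrend.map (j * d) b₃ + (x + y) * Behrend.map (j * d) b₃ := by
          have : a₂.val + (i₁.val + x) * Behrend.map (j * d) b₂ + y * Behrend.map (j * d) b₂
            = a₂.val + (i₁.val + x + y) * Behrend.map (j * d) b₂ := by ring
          rw [this, e3]
          ring
        omega
      obtain ⟨g1, g2⟩ := no_carry hb₁ hb₂ hb₃ hx1 hy1 hxy hsum
      subst g1
      subst g2
      have k1 : a₁ = a₃ := Fin.ext (by omega)
      have k2 : a₂ = a₃ := Fin.ext (by omega)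
      subst k1
      subst k2
      exact ⟨rfl, rfl⟩
  · rw [Fintype.card_prod, Fintype.card_fin, Fintype.card_coe]
    have h1 : d ^ D ≤ (Behrend.sphere D d k).card * (D * d ^ 2) := by
      have h2 : (0 : ℝ) < ((D * d ^ 2 : ℕ) : ℝ) := by
        have : 0 < D * d ^ 2 := Nat.mul_pos (by omega) (Nat.pow_pos (by omega))
        exact_mod_cast this
      rw [div_le_iff₀ h2] at hk
      exact_mod_cast hk
    calc j * (j * d) ^ D * d ^ D
        ≤ j * (j * d) ^ D * ((Behrend.sphere D d k).card * (D * d ^ 2)) :=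
          Nat.mul_le_mul_left _ h1
      _ = j * (j * d) ^ D * (Behrend.sphere D d k).card * (D * d ^ 2) := by ring

end Pool.Agent.T9h35.NearBF
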