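import Pool.Agent.T9h35.NearBF.Blocks
import Pool.Agent.T9h35.Sharp.Approx

/-!
The host graph: the blocks of a block system, and universal vertices.
-/

set_option autoImplicit false

namespace Pool.Agent.T9h35.NearBF

open Finset Pool.Agent.T9h35.Sharp
open scoped Classical

/-- A transversal clique of the block. -/
def TK {j w : ℕ} (z : Set (EE j w)) : Prop := ∃ φ : Fin j → Fin w, posG φ ⊆ z

theorem not_TK_empty {j w : ℕ} (hj : 2 ≤ j) : ¬ TK (∅ : Set (EE j w)) := by
  rintro ⟨φ, hφ⟩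
  have h : (⟨((⟨0, by omega⟩, φ ⟨0, by omega⟩), (⟨1, by omega⟩, φ ⟨1, by omega⟩)), by
      change (⟨0, _⟩ : Fin j) < ⟨1, _⟩
      simp⟩ : EE j w) ∈ posG φ := ⟨rfl, rfl⟩
  exact hφ h

theorem not_TK_negG {m w : ℕ} (χ : Vx (m + 1) w → Fin m) : ¬ TK (negG χ) := by
  rintro ⟨φ, hφ⟩
  obtain ⟨i, i', hne, hii⟩ := Fintype.exists_ne_map_eq_of_card_lt
    (fun i : Fin (m + 1) => χ (i, φ i)) (by simp)
  rcases lt_or_gt_of_ne hne with h | h
  · exact hφ (show (⟨((i, φ i), (i', φ i')), h⟩ : EE (m + 1) w) ∈ posG φ from ⟨rfl, rfl⟩) hii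
  · exact hφ (show (⟨((i', φ i'), (i, φ i)), h⟩ : EE (m + 1) w) ∈ posG φ from ⟨rfl, rfl⟩) hii.symm

/-- Structured vertices: part, group, element; and universal vertices. -/
abbrev Ver (j p w u : ℕ) : Type := (Fin j × (Fin p × Fin w)) ⊕ Fin u

variable {I : Type} {j p w u : ℕ}

/-- Directed adjacency of structured vertices. -/
def dir (σ : Sys I j p) (y : I → Set (EE j w)) (a b : Fin j × (Fin p × Fin w)) : Prop :=
  ∃ h : a.1 < b.1, ∃ β, σ.grp β a.1 = a.2.1 ∧ σ.grp β b.1 = b.2.1 ∧
    (⟨((a.1, a.2.2), (b.1, b.2.2)), h⟩ : EE j w) ∈ y β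

/-- Adjacency of structured vertices. -/
def adjV (σ : Sys I j p) (y : I → Set (EE j w)) : Ver j p w u → Ver j p w u → Prop
  | .inl a, .inl b => dir σ y a b ∨ dir σ y b a
  | .inr a, .inr b => a ≠ b
  | .inr _, .inl _ => True
  | .inl _, .inr _ => True

/-- The graph of structured vertices. -/
def HH (u : ℕ) (σ : Sys I j p) (y : I → Set (EE j w)) : SimpleGraph (Ver j p w u) where
  Adj := adjV σ y
  symm := ⟨by
    rintro (a | a) (b | b) h
    · exact Or.symm h
    · trivial
    · trivial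
    · exact Ne.symm h⟩
  loopless := ⟨by
    rintro (a | a) h
    · rcases h with ⟨h, -⟩ | ⟨h, -⟩
      · exact lt_irrefl _ h
      · exact lt_irrefl _ h
    · exact h rfl⟩

theorem HH_mono (σ : Sys I j p) {y y' : I → Set (EE j w)} (h : ∀ i, y i ⊆ y' i) :
    HH u σ y ≤ HH u σ y' := by
  intro a b hab
  change adjV σ y a b at hab
  change adjV σ y' a b
  have hd : ∀ a b, dir σ y a b → dir σ y' a b := by
    rintro a b ⟨h1, β, h2, h3, h4⟩
    exact ⟨h1, β, h2, h3, h β h4⟩
  rcases a with a | a <;> rcases b with b | b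
  · exact hab.imp (hd _ _) (hd _ _)
  · trivial
  · trivial
  · exact hab

/-- Directed adjacency is constant or a block variable. -/
theorem dir_leaf (σ : Sys I j p) (a b : Fin j × (Fin p × Fin w)) :
    (∀ y : I → Set (EE j w), ¬ dir σ y a b) ∨
    (∃ i e, ∀ y : I → Set (EE j w), dir σ y a b ↔ e ∈ y i) := by
  by_cases h : a.1 < b.1
  · by_cases hβ : ∃ β, σ.grp β a.1 = a.2.1 ∧ σ.grp β b.1 = b.2.1
    · obtain ⟨β, h1, h2⟩ := hβ
      right
      refine ⟨β, ⟨((a.1, a.2.2), (b.1, b.2.2)), h⟩, fun y => ⟨?_, fun h3 => ⟨h, β, h1, h2, h3⟩⟩⟩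
      rintro ⟨_, β', h3, h4, h5⟩
      have : β' = β := σ.lin β' β a.1 b.1 h (h3.trans h1.symm) (h4.trans h2.symm)
      rwa [this] at h5
    · left
      rintro y ⟨_, β, h1, h2, _⟩
      exact hβ ⟨β, h1, h2⟩
  · left
    rintro y ⟨h', _⟩
    exact h h'

/-- Every adjacency is constant or a block variable. -/
theorem HH_leaf (σ : Sys I j p) (a b : Ver j p w u) :
    (∃ t : Prop, ∀ y : I → Set (EE j w), (HH u σ y).Adj a b ↔ t) ∨
    (∃ i e, ∀ y : I → Set (EE j w), (HH u σ y).Adj a b ↔ e ∈ y i) := by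
  rcases a with a | a <;> rcases b with b | b
  · rcases dir_leaf (w := w) σ a b with h1 | ⟨i, e, h1⟩
    · rcases dir_leaf (w := w) σ b a with h2 | ⟨i, e, h2⟩
      · exact Or.inl ⟨False, fun y => ⟨fun h => h.elim (h1 y) (h2 y), fun h => h.elim⟩⟩
      · refine Or.inr ⟨i, e, fun y => ⟨fun h => ?_, fun h => Or.inr ((h2 y).2 h)⟩⟩
        rcases h with h | h
        · exact (h1 y h).elim
        · exact (h2 y).1 h
    · rcases dir_leaf (w := w) σ b a with h2 | ⟨i', e', h2⟩
      · refine Or.inr ⟨i, e, fun y => ⟨fun h => ?_, fun h => Or.inl ((h1 y).2 h)⟩⟩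
        rcases h with h | h
        · exact (h1 y).1 h
        · exact (h2 y h).elim
      · exfalso
        have e1 := (h1 (fun _ => Set.univ)).2 trivial
        have e2 := (h2 (fun _ => Set.univ)).2 trivial
        exact lt_asymm e1.1 e2.1
  · exact Or.inl ⟨True, fun y => Iff.rfl⟩
  · exact Or.inl ⟨True, fun y => Iff.rfl⟩
  · exact Or.inl ⟨_, fun y => Iff.rfl⟩

theorem HH_clique (hj : 3 ≤ j) (σ : Sys I j p) (y : I → Set (EE j w)) :
    (∃ c : Finset (Ver j p w u), (HH u σ y).IsClique (c : Set (Ver j p w u)) ∧ u + j ≤ c.card) ↔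
      ∃ i, TK (y i) := by
  constructor
  · rintro ⟨c, hc, hcard⟩
    have hadj : ∀ a ∈ c, ∀ b ∈ c, a ≠ b → adjV σ y a b := fun a ha b hb hab => hc ha hb hab
    have hU : c.toRight.card ≤ u := by
      have := card_le_univ c.toRight
      simpa using this
    have h1 := card_toLeft_add_card_toRight (u := c)
    have hS : ∀ a ∈ c.toLeft, ∀ b ∈ c.toLeft, a ≠ b → dir σ y a b ∨ dir σ y b a := by
      intro a ha b hb hab
      rw [mem_toLeft] at ha hb
      exact hadj _ ha _ hb (fun h => hab (Sum.inl_injective h))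
    have hinj : Set.InjOn (fun a : Fin j × (Fin p × Fin w) => a.1) c.toLeft := by
      intro a ha b hb hab
      by_contra hne
      have hab' : a.1 = b.1 := hab
      rcases hS a ha b hb hne with ⟨h, -⟩ | ⟨h, -⟩
      · rw [hab'] at h
        exact lt_irrefl _ h
      · rw [hab'] at h
        exact lt_irrefl _ h
    have hle : c.toLeft.card ≤ j := by
      have := card_le_card_of_injOn (s := c.toLeft) (t := (univ : Finset (Fin j)))
        (fun a : Fin j × (Fin p × Fin w) => a.1) (fun a _ => mem_univ _) hinj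
      simpa using this
    have hcl : c.toLeft.card = j := by omega
    have himg : c.toLeft.image (fun a : Fin j × (Fin p × Fin w) => a.1) = univ := by
      apply eq_univ_of_card
      rw [card_image_of_injOn hinj, hcl, Fintype.card_fin]
    have hex : ∀ i : Fin j, ∃ a ∈ c.toLeft, a.1 = i := by
      intro i
      have : i ∈ c.toLeft.image (fun a : Fin j × (Fin p × Fin w) => a.1) := by
        rw [himg]; exact mem_univ _
      rw [mem_image] at this
      exact this
    choose f hfS hfi using hex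
    have hdir : ∀ i i', i < i' → dir σ y (f i) (f i') := by
      intro i i' h
      rcases hS _ (hfS i) _ (hfS i') (by
        intro hcon
        have : i = i' := by rw [← hfi i, ← hfi i', hcon]
        exact h.ne this) with h1 | ⟨h1, -⟩
      · exact h1
      · exfalso
        rw [hfi, hfi] at h1
        exact lt_asymm h h1
    have hbl : ∀ i i' (h : i < i'), ∃ β, σ.grp β i = (f i).2.1 ∧ σ.grp β i' = (f i').2.1 ∧
        (⟨((i, (f i).2.2), (i', (f i').2.2)), h⟩ : EE j w) ∈ y β := by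
      intro i i' h
      obtain ⟨h1, β, h2, h3, h4⟩ := hdir i i' h
      refine ⟨β, ?_, ?_, ?_⟩
      · rw [hfi] at h2
        exact h2
      · rw [hfi] at h3
        exact h3
      · convert h4 using 3
        · rw [hfi]
        · rw [hfi]
    have htri : ∀ i₁ i₂ i₃ β₁ β₂ β₃, i₁ < i₂ → i₂ < i₃ →
        (σ.grp β₁ i₁ = (f i₁).2.1 ∧ σ.grp β₁ i₂ = (f i₂).2.1) →
        (σ.grp β₂ i₂ = (f i₂).2.1 ∧ σ.grp β₂ i₃ = (f i₃).2.1) →
        (σ.grp β₃ i₁ = (f i₁).2.1 ∧ σ.grp β₃ i₃ = (f i₃).2.1) → β₁ = β₃ ∧ β₂ = β₃ := by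
      intro i₁ i₂ i₃ β₁ β₂ β₃ h12 h23 e1 e2 e3
      exact σ.tri β₁ β₂ β₃ i₁ i₂ i₃ h12 h23 (e1.1.trans e3.1.symm) (e1.2.trans e2.1.symm)
        (e2.2.trans e3.2.symm)
    set z₀ : Fin j := ⟨0, by omega⟩ with hz₀
    set z₁ : Fin j := ⟨1, by omega⟩ with hz₁
    have h01 : z₀ < z₁ := by
      rw [hz₀, hz₁, Fin.mk_lt_mk]
      omega
    obtain ⟨β₀, hβ₀⟩ := hbl z₀ z₁ h01
    have hall : ∀ i i', i < i' → ∀ β, σ.grp β i = (f i).2.1 → σ.grp β i' = (f i').2.1 →
        β = β₀ := by
      have hz : ∀ i', z₀ < i' → ∀ β, σ.grp β z₀ = (f z₀).2.1 → σ.grp β i' = (f i').2.1 →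
          β = β₀ := by
        intro i' hi' β e1 e2
        by_cases hi1 : i' = z₁
        · subst hi1
          exact σ.lin β β₀ z₀ z₁ h01 (e1.trans hβ₀.1.symm) (e2.trans hβ₀.2.1.symm)
        · have h1i : z₁ < i' := by
            have a1 : (0 : ℕ) < i'.val := hi'
            have a2 : i'.val ≠ 1 := fun h => hi1 (Fin.ext h)
            change (1 : ℕ) < i'.val
            omega
          obtain ⟨β₂, hβ₂⟩ := hbl z₁ i' h1i
          have := htri z₀ z₁ i' β₀ β₂ β h01 h1i ⟨hβ₀.1, hβ₀.2.1⟩ ⟨hβ₂.1, hβ₂.2.1⟩ ⟨e1, e2⟩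
          exact this.1.symm
      intro i i' hii β e1 e2
      by_cases hi : i = z₀
      · subst hi
        exact hz i' hii β e1 e2
      · have h0i : z₀ < i := by
          have a2 : i.val ≠ 0 := fun h => hi (Fin.ext h)
          change (0 : ℕ) < i.val
          omega
        obtain ⟨β₁, hβ₁⟩ := hbl z₀ i h0i
        obtain ⟨β₃, hβ₃⟩ := hbl z₀ i' (h0i.trans hii)
        have h5 := htri z₀ i i' β₁ β β₃ h0i hii ⟨hβ₁.1, hβ₁.2.1⟩ ⟨e1, e2⟩ ⟨hβ₃.1, hβ₃.2.1⟩
        rw [h5.2]
        exact hz i' (h0i.trans hii) β₃ hβ₃.1 hβ₃.2.1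
    refine ⟨β₀, fun i => (f i).2.2, ?_⟩
    rintro ⟨⟨⟨i, x⟩, ⟨i', x'⟩⟩, hii⟩ ⟨h2, h3⟩
    simp only at h2 h3
    subst h2
    subst h3
    obtain ⟨β, e1, e2, e3⟩ := hbl i i' hii
    rwa [hall i i' hii β e1 e2] at e3
  · rintro ⟨β, φ, h⟩
    set cL : Finset (Fin j × (Fin p × Fin w)) :=
      univ.image fun i : Fin j => (i, (σ.grp β i, φ i)) with hcL
    have hL : cL.card = j := by
      rw [hcL, card_image_of_injective, card_univ, Fintype.card_fin]
      intro x x' hx
      simp only [Prod.mk.injEq] at hx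
      exact hx.1
    have hdir : ∀ i i', i < i' → dir σ y (i, (σ.grp β i, φ i)) (i', (σ.grp β i', φ i')) := by
      intro i i' hii
      refine ⟨hii, β, rfl, rfl, ?_⟩
      apply h
      exact ⟨rfl, rfl⟩
    refine ⟨cL.disjSum univ, ?_, ?_⟩
    · intro a ha b hb hab
      change adjV σ y a b
      rcases a with a | a <;> rcases b with b | b <;>
        simp only [mem_coe, Sum.inl.injEq, Sum.inr.injEq, reduceCtorEq,
          inl_mem_disjSum, inr_mem_disjSum, mem_univ, true_and, ne_eq, hcL, mem_image,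
          not_false_eq_true] at ha hb hab ⊢
      · obtain ⟨x, rfl⟩ := ha
        obtain ⟨x', rfl⟩ := hb
        have hne : x ≠ x' := fun h => hab (by rw [h])
        rcases lt_or_gt_of_ne hne with h | h
        · exact Or.inl (hdir _ _ h)
        · exact Or.inr (hdir _ _ h)
      · trivial
      · trivial
      · exact hab
    · rw [card_disjSum, hL, card_univ, Fintype.card_fin]
      omega

/-- The embedding: disjoint copies of the block function inside the problem of finding a
clique with at least `k` vertices in a graph on `n` vertices. -/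
theorem host (n k : ℕ) (hj : 3 ≤ j) (hk : j ≤ k) (σ : Sys I j p)
    (hn : j * (p * w) + (k - j) ≤ n) :
    ∃ G : (I → Set (EE j w)) → SimpleGraph (Fin n),
      (∀ y y', (∀ i, y i ⊆ y' i) → G y ≤ G y') ∧
      (∀ a b : Fin n, (∃ t : Prop, ∀ y, (G y).Adj a b ↔ t) ∨
        (∃ i e, ∀ y, (G y).Adj a b ↔ e ∈ y i)) ∧
      (∀ y, (∃ c : Finset (Fin n), (G y).IsClique (c : Set (Fin n)) ∧ k ≤ c.card) ↔
        ∃ i, TK (y i)) := by
  set u := k - j with hu
  have hcard : Fintype.card (Ver j p w u) ≤ Fintype.card (Fin n) := by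
    simp only [Fintype.card_sum, Fintype.card_prod, Fintype.card_fin]
    omega
  obtain ⟨ι⟩ := Function.Embedding.nonempty_of_card_le hcard
  have hku : k = u + j := by omega
  refine ⟨fun y => (HH u σ y).map ι, ?_, ?_, ?_⟩
  · intro y y' h
    exact SimpleGraph.map_monotone ι (HH_mono σ h)
  · intro a b
    by_cases ha : ∃ u', ι u' = a
    · by_cases hb : ∃ v', ι v' = b
      · obtain ⟨a', rfl⟩ := ha
        obtain ⟨b', rfl⟩ := hb
        simp only [SimpleGraph.map_adj_apply]
        exact HH_leaf σ a' b'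
      · left
        refine ⟨False, fun y => ?_⟩
        simp only [SimpleGraph.map_adj, iff_false, not_exists, not_and]
        rintro u' v' _ _ h
        exact hb ⟨v', h⟩
    · left
      refine ⟨False, fun y => ?_⟩
      simp only [SimpleGraph.map_adj, iff_false, not_exists, not_and]
      rintro u' v' _ h _
      exact ha ⟨u', h⟩
  · intro y
    rw [← HH_clique (u := u) hj σ y]
    constructor
    · rintro ⟨c, hc, hck⟩
      have hrange : ∀ a ∈ c, ∃ a', ι a' = a := by
        intro a ha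
        obtain ⟨b, hb, hba⟩ : ∃ b ∈ c, b ≠ a := by
          apply exists_mem_ne (by omega)
        have := hc hb ha hba
        rw [SimpleGraph.map_adj] at this
        obtain ⟨u', v', _, _, h⟩ := this
        exact ⟨v', h⟩
      refine ⟨univ.filter fun a => ι a ∈ c, ?_, ?_⟩
      · intro a ha b hb hab
        simp only [coe_filter, mem_univ, true_and, Set.mem_ofPred_eq] at ha hb
        have := hc ha hb (fun h => hab (ι.injective h))
        rwa [SimpleGraph.map_adj_apply] at this
      · have : c ⊆ (univ.filter fun a => ι a ∈ c).map ι := by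
          intro a ha
          obtain ⟨a', rfl⟩ := hrange a ha
          simp only [mem_map, mem_filter, mem_univ, true_and]
          exact ⟨a', ha, rfl⟩
        have := card_le_card this
        rw [card_map] at this
        omega
    · rintro ⟨c, hc, hck⟩
      refine ⟨c.map ι, ?_, ?_⟩
      · rw [coe_map]
        exact hc.map
      · rw [card_map]
        omega

end Pool.Agent.T9h35.NearBF
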